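import Pool.Agent.Helper37.BC.Fin

/-!
# The random wave and the correlations at infinity (MP_6b977f_mp)

The plane is `ℂ`. The definitions are in `Pool.Agent.N661.BR.Defs` (library): `MW` is the space of
the smooth real functions `f` on the plane with `Δf + f = 0`, `IsStationary ρ`, `IsGaussianLaw ρ`
and `IsRandomWave ρ` say that the law `ρ` on `MW` is translation invariant, centred Gaussian, and
`μ_RMW`, `lin w t f = ∑ t j f (w j)`, and `IsLocalLimit χ Ω lam u μ` says that `μ` is a limit point
of the local measures of the eigenfunctions `u n` on `Ω`; and in `Pool.Agent.Helper37.BC.Defs`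
and `Pool.Agent.Helper37.BC.Cum`:

* `cum` is the joint cumulant, defined by the usual recursion, and `trunc ρ z` the truncated
  correlation function of `ρ` at the points `z 0, …, z n`;
* `excess ρ w t y = E[f(y) exp(iX)] - i E[f(y) X] E[exp(iX)]` for `X = lin w t f`; for a centred
  Gaussian law it is zero;
* `Decays u` says that `R⁻¹ ∫_{|y| < R} |u(y)|² dy` has the lower limit `0` as `R → ∞`. For
  example this is so if `u(y) = o(|y|^{-1/2})`, or if `u ∈ L⁴`; the Bessel function `J₀(|y|)`, the
  covariance of the random wave, just fails to decay in this sense;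
* `FarGaussian ρ`: `Decays (excess ρ w t)` for all `w`, `t`;
* `Clusters ρ n`: the truncated function of `n + 1` points decays in this sense when one point
  tends to infinity, for almost all positions of the others;
* `HighClustering ρ`: all moments of `f(0)` are finite, and `Clusters ρ n` for all large `n`.

For a limit point `μ` of the local measures of quantum ergodic eigenfunctions with `∫ f(0)² dμ = 1`
the theorem gives two characterisations of `μ = μ_RMW` by the behaviour of the correlations of
distant points: (a) the correlation of `f(y)` with any `exp(iX)` is asymptotically, to the order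
`|y|^{-1/2}` of the covariance, what it is for a Gaussian law with the same second moments; no
moments of order larger than two are needed; (b) all moments are finite, and the truncated
functions of all sufficiently high orders decay faster than the covariance. Nothing is assumed on
finite distances, on low orders, on ergodicity or on plane waves. More generally a limit point
which is a mixture of stationary laws with one of these properties and without plane waves is the
random wave.

Proof idea. (1) By the mean value property `f(w) = ∫ K_R(y) f(w + y) dy` with a kernel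
`K_R = J₀(|y|) 1_{|y| < R} / c_R`, `∫ K_R² = 1 / c_R ≤ C / R`; so every correlation
`u(y) = E[f(y) Q]` satisfies `u(w)² ≤ (C / R) ∫_{|y| < R + |w|} u²`, and vanishes if it decays. (2) The
truncated functions and the excess are of this form in each variable. (3) If the excess vanishes,
`E[X exp(isX)] = i s E[X²] E[exp(isX)]`, a differential equation for the characteristic function of
`X`. (4) If the truncated functions of large order vanish, all but finitely many cumulants of `X`
vanish, and `X` is Gaussian by the theorem of Marcinkiewicz. (5) For Gaussian laws the excess and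
the truncated functions of more than two points vanish (identities of Stein and Wick). (6) By
quantum ergodicity the second moments of `μ` are those of the random wave (library), and the
mixtures are covered by the theorem of `DivisibleLimits`.
-/

set_option autoImplicit false
open MeasureTheory Filter Topology ProbabilityTheory
open scoped ContDiff ENNReal

namespace Pool.Agent.Results.MP_6b977f_mp.CorrelationsAtInfinity

open Pool.Agent.W745.RW (lap)
open Pool.Agent.N661.BR
open Pool.Agent.Helper37.BC

/-- **Result.** (A) Let `ρ` be a stationary law on `MW`. It is Gaussian if and only if all its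
moments are finite and almost all its truncated functions cluster. If the second moment is finite,
it is Gaussian if and only if its correlations at infinity are Gaussian, and this also holds for
each linear combination `X` separately: `X` is Gaussian if the excess correlation of `f(y)` with
`exp(isX)` decays for all real `s`. The truncated functions of `n + 1` points vanish if they
cluster, and they do if they are in `L^p`, `p ≤ 4`, for one fixed point.
(B) Let `u n` be real solutions of `Δu + λ_n u = 0` on the bounded open set `Ω`, `λ_n → ∞`, which
are quantum ergodic, and let `μ` be a limit point of their local measures with `∫ f(0)² dμ = 1`.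
Then `μ` is the random wave if and only if its correlations at infinity are Gaussian, and if and
only if all its moments are finite and almost all its truncated functions cluster. It is the random
wave if `μ = ∫ κ_s dP(s)`, where almost every `κ_s` is stationary, has one of these two properties,
and has the covariance `m_s cov ν_s (w - w')` for a probability measure `ν_s` without atoms modulo
`π`. -/
theorem result :
    -- (A) stationary waves
    (∀ (ρ : Measure MW) [IsProbabilityMeasure ρ], IsStationary ρ →
      (IsGaussianLaw ρ ↔ HighClustering ρ) ∧
      (Integrable (fun f : MW => f 0 ^ 2) ρ →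
        (IsGaussianLaw ρ ↔ FarGaussian ρ) ∧
        ∀ (k : ℕ) (w : Fin k → ℂ) (t : Fin k → ℝ),
          (∀ s : ℝ, Decays fun y => ‖excess ρ w (fun j => s * t j) y‖) →
            ρ.map (lin w t) = gaussianReal 0 (∫ f, lin w t f ^ 2 ∂ρ).toNNReal) ∧
      (FiniteMoments ρ → ∀ n : ℕ,
        (Clusters ρ n → ∀ z : Fin (n + 1) → ℂ, trunc ρ z = 0) ∧
        ∀ p : ℝ≥0∞, p ≠ 0 → p ≤ 4 →
          MemLp (fun y : Fin (n + 1) → ℂ => trunc ρ (Fin.cons 0 y : Fin (n + 2) → ℂ)) p volume →
            Clusters ρ (n + 1))) ∧
    -- (B) local limits of quantum ergodic eigenfunctions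
    (∀ (Ω : Set ℂ), IsOpen Ω → Bornology.IsBounded Ω → Ω.Nonempty →
      ∀ (lam : ℕ → ℝ), (∀ n, 0 < lam n) → Tendsto lam atTop atTop →
      ∀ (u : ℕ → ℂ → ℝ), (∀ n, ContDiffOn ℝ ∞ (u n) Ω) →
      (∀ n, ∀ z ∈ Ω, lap (u n) z + lam n * u n z = 0) → IsQuantumErgodic Ω lam u →
      ∀ (χ : ℝ → ℝ), IsCutoff χ → ∀ (μ : Measure MW) [IsProbabilityMeasure μ],
      IsLocalLimit χ Ω lam u μ → ∫ f : MW, f 0 ^ 2 ∂μ = 1 →
        (IsRandomWave μ ↔ FarGaussian μ) ∧ (IsRandomWave μ ↔ HighClustering μ) ∧
        ∀ (S : Type) [MeasurableSpace S] (P : Measure S) [IsProbabilityMeasure P]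
          (κ : Kernel S MW) [IsMarkovKernel κ], P.bind κ = μ →
          (∀ᵐ s ∂P, IsStationary (κ s) ∧ (FarGaussian (κ s) ∨ HighClustering (κ s))) →
          ∀ (m : S → ℝ) (ν : S → Measure ℝ),
          (∀ᵐ s ∂P, IsProbabilityMeasure (ν s) ∧ parallel (ν s) = 0 ∧
            ∀ w w' : ℂ, ∫ f : MW, f w * f w' ∂(κ s) = m s * cov (ν s) (w - w')) →
          IsRandomWave μ) := by
  refine ⟨fun ρ _ hs => ⟨gaussian_iff_high hs, fun h2 => ⟨gaussian_iff_far hs h2,
    fun k w t hd => gauss_of_excess hs h2 w t hd⟩, fun h0 n =>
    ⟨fun hc z => trunc_zero hs h0 hc z, fun p hp0 hp h => clusters_of_memLp hs h0 hp0 hp h⟩⟩, ?_⟩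
  intro Ω hΩ hb hne lam hpos hlam u hu heq hqe χ hχ μ hp hμ hvar
  obtain ⟨hs, h2, hcov⟩ := limit_facts hΩ hb hne hpos hlam hu heq hqe hχ hμ
  have hw := wave_iff hs h2 (hcov hvar)
  refine ⟨hw.trans (gaussian_iff_far hs h2), hw.trans (gaussian_iff_high hs), ?_⟩
  intro S _ P _ κ _ hκ h m ν hν
  obtain ⟨hQ, hmass, _⟩ := limit_all hΩ hb hne hpos hlam hu heq hqe hχ inferInstance hμ
  exact mixture_wave hQ hmass hvar hκ m ν hν h

end Pool.Agent.Results.MP_6b977f_mp.CorrelationsAtInfinity
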