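import Pool.Agent.Helper26.Ip.Bridge

/-!
# Independent parts of random waves (MP_6b977f_mp)

The plane is `ℂ`. The definitions are in `Pool.Agent.N661.BR.Defs` (library): `MW` is the space of
the smooth real functions `f` on the plane with `Δf + f = 0`, `IsStationary ρ`, `IsGaussianLaw ρ`
and `IsRandomWave ρ` say that the law `ρ` on `MW` is translation invariant, centred Gaussian, and
`μ_RMW`, and `IsLocalLimit χ Ω lam u μ` says that `μ` is a limit point of the local measures of the
eigenfunctions `u n` on `Ω`; and in `Pool.Agent.Helper26.Ip.Fn` and `Pool.Agent.Helper26.Ip.Defs`: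

* `linearSpace ρ`, called `H` below, is the closed linear span of the values `f ↦ f y` in `L²(ρ)`;
  its closed subspaces are written as `A = closedSpan ρ G` with a subset `G` of `H`, and the
  orthogonal complement of `A` in `H` is `B = complement ρ G`;
* `invPart A` is the set of the elements of `A` all of whose translates are in `A`, and
  `IsZero ρ (invPart A)` says that it is `0`;
* `Indep ρ A B` says that the elements of `A` are independent of the elements of `B` (for
  linear spaces this is the independence of the generated σ-algebras);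
* `HasSplitting ρ` says that `H` is the orthogonal sum of two independent closed subspaces without
  non-zero invariant elements;
* `partialWave n f` is a multiple of the partial wave of angular momentum `n` of `f` about `0`.

The splittings are not equivariant: the translates of an element of `A` need not be in `A`. For
example `A` can be the span of `f(0)`, and its complement `B` the span of the residual field
`f(y) - c(y) f(0)`, or `A` and `B` can be the spans of the even and of the odd part of `f`.

Proof idea. Let `Φ(c) = E exp(ic)` and `d_c(k) = E[k exp(ic)] - i E[k c] Φ(c)` for `c, k ∈ H`. (1) By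
independence `d_{a + b}(k) = Φ(b) d_a(k)` for `k ∈ A` and `Φ(a) d_b(k)` for `k ∈ B`; in particular
`d_a = 0` on `B`. (2) Let `S_x` be the translation and `g(s) = ‖d_a S_{-se}|_B‖`. Splitting
`S_{-he} k`, `k ∈ B`, into its components in `A` and `B` one gets
`g(s + h) ≤ g(s) + η(Q S_{he} a')` with an `a' ∈ A`, `Q` the projection on `B`, and
`η(b) = O(‖e^{ib} - 1 - ib‖ + ‖b‖²)`. The translations are differentiable on `H`: by the mean value property
of waves `‖S_x c - c‖ ≤ C |x| ‖c‖`; so `Q S_{he} a' = Q (S_{he} a' - a')` is `h` times a convergent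
element, and `η(Q S_{he} a') = o(h)`. Hence `g = 0`. (3) So the vector which represents `d_a` has all
its translates in `A`, i.e. `d_a = 0` on the elements orthogonal to the invariant part of `A`. (4)
For `k` orthogonal to both invariant parts `d_c(k) = 0` for all `c ∈ H`, a differential equation for
`s ↦ Φ(c + s k)`.
-/

set_option autoImplicit false
open MeasureTheory Filter Topology ProbabilityTheory
open scoped ContDiff ENNReal

namespace Pool.Agent.Results.MP_6b977f_mp.IndependentParts

open Pool.Agent.W745.RW (lap)
open Pool.Agent.N661.BR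
open Pool.Agent.Helper37.BC
open Pool.Agent.Helper26.Ip

/-- **Result.** (A) Let `ρ` be a stationary law on `MW` with `E f(0)² < ∞`, `A` a closed subspace of
`H` and `B` its orthogonal complement in `H`. Then `A` and `B` are independent if and only if their
invariant parts are independent and every `k ∈ H` orthogonal to the invariant parts is Gaussian and
independent of every `c ∈ H` orthogonal to `k`. If the invariant parts are `0`, this holds if and
only if `ρ` is Gaussian. In particular `ρ` is Gaussian if and only if the even part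
`f(y) + f(-y)` and the odd part `f(y) - f(-y)` are independent.
(B) Let `u n` be real solutions of `Δu + λ_n u = 0` on the bounded open set `Ω`, `λ_n → ∞`, which
are quantum ergodic, and let `μ` be a limit point of their local measures with `∫ f(0)² dμ = 1`.
Then `μ` is the random wave if and only if the partial waves with angular momenta in `N` are
independent of the others, for a set `N` of angular momenta which is neither empty nor everything;
if and only if the symmetric and the antisymmetric part of `f` under an involution `R ≠ 1` (a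
reflection, or the rotation by `π`) are independent; and if and only if `A` and `B` are independent,
for `A` and `B` as in (A) without invariant elements. It is the random wave if `μ = ∫ κ_s dP(s)`,
where almost every `κ_s` is stationary, splits, and has the covariance `m_s cov ν_s (w - w')` for a
probability measure `ν_s` without atoms modulo `π`. -/
theorem result :
    -- (A) stationary waves
    (∀ (ρ : Measure MW) [IsProbabilityMeasure ρ], IsStationary ρ →
      Integrable (fun f : MW => f 0 ^ 2) ρ →
      (∀ G ⊆ linearSpace ρ,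
        (Indep ρ (closedSpan ρ G) (complement ρ G) ↔
          Indep ρ (invPart (closedSpan ρ G)) (invPart (complement ρ G)) ∧
          ∀ k ∈ linearSpace ρ, (∀ a ∈ invPart (closedSpan ρ G), ∫ f, a f * k f ∂ρ = 0) →
            (∀ b ∈ invPart (complement ρ G), ∫ f, b f * k f ∂ρ = 0) →
            ρ.map k = gaussianReal 0 (∫ f, k f ^ 2 ∂ρ).toNNReal ∧
            ∀ c ∈ linearSpace ρ, ∫ f, k f * c f ∂ρ = 0 → IndepFun k c ρ) ∧
        (IsZero ρ (invPart (closedSpan ρ G)) → IsZero ρ (invPart (complement ρ G)) →
          (IsGaussianLaw ρ ↔ Indep ρ (closedSpan ρ G) (complement ρ G)))) ∧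
      (IsGaussianLaw ρ ↔ IndepFun (fun (f : MW) (y : ℂ) => f y + f (-y))
        (fun (f : MW) (y : ℂ) => f y - f (-y)) ρ)) ∧
    -- (B) local limits of quantum ergodic eigenfunctions
    (∀ (Ω : Set ℂ), IsOpen Ω → Bornology.IsBounded Ω → Ω.Nonempty →
      ∀ (lam : ℕ → ℝ), (∀ n, 0 < lam n) → Tendsto lam atTop atTop →
      ∀ (u : ℕ → ℂ → ℝ), (∀ n, ContDiffOn ℝ ∞ (u n) Ω) →
      (∀ n, ∀ z ∈ Ω, lap (u n) z + lam n * u n z = 0) → IsQuantumErgodic Ω lam u →
      ∀ (χ : ℝ → ℝ), IsCutoff χ → ∀ (μ : Measure MW) [IsProbabilityMeasure μ],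
      IsLocalLimit χ Ω lam u μ → ∫ f : MW, f 0 ^ 2 ∂μ = 1 →
        (∀ N : Set ℕ, N.Nonempty → Nᶜ.Nonempty → (IsRandomWave μ ↔
          IndepFun (fun (f : MW) (p : N × ℂ) => partialWave p.1 f p.2)
            (fun (f : MW) (p : (Nᶜ : Set ℕ) × ℂ) => partialWave p.1 f p.2) μ)) ∧
        (∀ R : ℂ ≃ₗᵢ[ℝ] ℂ, (∀ y, R (R y) = y) → (∃ y, R y ≠ y) → (IsRandomWave μ ↔
          IndepFun (fun (f : MW) (y : ℂ) => f y + f (R y))
            (fun (f : MW) (y : ℂ) => f y - f (R y)) μ)) ∧
        (∀ G ⊆ linearSpace μ, IsZero μ (invPart (closedSpan μ G)) →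
          IsZero μ (invPart (complement μ G)) →
          (IsRandomWave μ ↔ Indep μ (closedSpan μ G) (complement μ G))) ∧
        ∀ (S : Type) [MeasurableSpace S] (P : Measure S) [IsProbabilityMeasure P]
          (κ : Kernel S MW) [IsMarkovKernel κ], P.bind κ = μ →
          (∀ᵐ s ∂P, IsStationary (κ s) ∧ HasSplitting (κ s)) →
          ∀ (m : S → ℝ) (ν : S → Measure ℝ),
          (∀ᵐ s ∂P, IsProbabilityMeasure (ν s) ∧ parallel (ν s) = 0 ∧
            ∀ w w' : ℂ, ∫ f : MW, f w * f w' ∂(κ s) = m s * cov (ν s) (w - w')) →
          IsRandomWave μ) := by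
  refine ⟨fun ρ _ hs h2 => ⟨fun G hG => ⟨structure_fn hs h2 hG,
    fun h0 h1 => split_fn hs h2 hG h0 h1⟩, parity hs h2⟩, ?_⟩
  intro Ω hΩ hb hne lam hpos hlam u hu heq hqe χ hχ μ hp hμ hvar
  obtain ⟨hs, h2, hcov⟩ := limit_facts hΩ hb hne hpos hlam hu heq hqe hχ hμ
  have hw := wave_iff hs h2 (hcov hvar)
  refine ⟨fun N hN hN' => hw.trans (partial_waves hs h2 (hcov hvar) N hN hN'),
    fun R hR hne => hw.trans (reflection hs h2 (hcov hvar) R hR hne),
    fun G hG h0 h1 => hw.trans (split_fn hs h2 hG h0 h1), ?_⟩
  intro S _ P _ κ _ hκ h m ν hν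
  obtain ⟨hQ, hmass, _⟩ := limit_all hΩ hb hne hpos hlam hu heq hqe hχ inferInstance hμ
  have hν2 : ∀ᵐ s ∂P, IsProbabilityMeasure (ν s) ∧
      ∀ w w' : ℂ, ∫ f : MW, f w * f w' ∂(κ s) = m s * cov (ν s) (w - w') :=
    hν.mono fun s hs => ⟨hs.1, hs.2.2⟩
  obtain ⟨k1, _⟩ := mix_sec' hκ (ne_top_of_le_ne_top ENNReal.one_ne_top hmass) hν2
  refine divisible_case allParts hQ hvar hκ m ν hν ?_
  filter_upwards [k1, h] with s h1 hs
  obtain ⟨hst, G, hG, h0, h3, hi⟩ := hs
  exact Or.inr ((split_fn hst h1 hG h0 h3).2 hi)

end Pool.Agent.Results.MP_6b977f_mp.IndependentParts
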