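import Pool.Agent.Helper19.BW.Mix

/-!
# Local limits of eigenfunctions which are built from independent sources (MP_6b977f_mp)

The definitions are in `Pool.Agent.N661.BR.Defs` (library) and `Pool.Agent.Helper19.BW.Def`:

* `MW` is the space of all smooth real functions `f` on the plane `ℂ` with `Δf + f = 0`, `shift x f`
  is the translate `y ↦ f (y + x)`, `lin w t f = ∑ t_j f (w_j)`;
* `IsLocalLimit χ Ω lam u μ`: the law `μ` on `MW` is the limit along a subsequence of the local
  measures of the functions `u n` on `Ω`; `IsQuantumErgodic Ω lam u`: the sequence is quantum ergodic;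
* `μ_RMW` is the law of the centred Gaussian field of covariance `J_0(|x - y|)`, that is, the law on
  `MW` with `∫ exp (i ∑ t_j f(w_j)) dμ = exp (-(1/2) ∑ t_i t_j J_0(|w_i - w_j|))` for all `w`, `t`;
* `HasSources κ δ`: `κ` is the law of a random wave `Φ` which is an equivariant measurable function
  of finitely many independent weakly mixing systems (measure preserving actions of the plane whose
  events have continuous spectrum), such that the conditional expectation of `Φ(0)` given any one of
  these systems has variance at most `δ`.

There is no condition on the way in which the wave depends on the sources; it may be as nonlinear as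
one likes. Berry's heuristics for the random wave conjecture is that the eigenfunction is locally a
superposition of very many independent contributions; the theorem says that for local limits of
quantum ergodic sequences superposition need not be assumed: if almost every component `κ s` of the
limit `μ = ∫ κ_s dP(s)` is any function of independent sources of influence at most `δ`, then the
characteristic functions of all finite linear combinations of values differ from the ones of the
random wave by `O(√δ)`. It is enough to assume this for all `δ' > δ`; for `δ = 0` (sources of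
arbitrarily small influence) the theorem says that `μ` is the law of the random wave.
Nothing else is assumed on the components (no moments, no divisibility, no condition on plane waves).

Proof idea.
1. The unit circle is a null set for the convolution of any two finite measures without atoms on the
   plane, since two different translates of the circle meet in at most two points. Hence the
   spectral measure of a product of centred functions of two or more different sources does not
   charge the circle, whereas the one of a wave lives on it. Vectors with such spectral measures are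
   orthogonal (`Spec.lean`). So the values of the wave are orthogonal to all these products, and
   the wave is the sum of its conditional expectations given the single sources (`Split.lean`).
2. The same argument for the measure at a point of the circle shows that the components are ergodic
   and contain no plane waves (`Atom.lean`, `Wave.lean`).
3. By the theory of the library (`Pool.Agent.N661.BR`) almost every component has the covariance and
   the four point functions of the random wave. So the fourth cumulant of every linear combination of
   values vanishes, which bounds the fourth moments of its independent summands, and the central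
   limit estimate of `Clt.lean` applies.
-/

set_option autoImplicit false
open MeasureTheory Filter Topology ProbabilityTheory
open scoped ContDiff

namespace Pool.Agent.Results.MP_6b977f_mp.IndependentSources

open Pool.Agent.W745.RW (lap)
open Pool.Agent.N661.BR
open Pool.Agent.Helper19.BW (HasSources mix_sources)

/-- **Result.** Let `u n` be real solutions of `Δu + λ_n u = 0` on the bounded open set `Ω`,
`λ_n → ∞`, which are quantum ergodic, and let `μ` be a limit point of their local measures, with
`∫ f(0)² dμ = 1` and `μ = ∫ κ_s dP(s)`. Let `δ ≥ 0` be such that for every `δ' > δ` almost every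
`κ_s` is the law of a wave which is an equivariant function of finitely many independent weakly
mixing systems, each of influence at most `δ'`. Then for all points `w_j` and real numbers `t_j`,
`j < k`, with `V = ∑ t_i t_j J_0(|w_i - w_j|)` and `ε² = k δ ∑ t_j²`,
`|∫ exp (i ∑ t_j f(w_j)) dμ - exp (-V/2)| ≤ (8 ε + ε²/4) V`.
For `δ = 0` this says that `μ` is the law `μ_RMW` of the random wave. -/
theorem result (Ω : Set ℂ) (hΩ : IsOpen Ω) (hb : Bornology.IsBounded Ω) (hne : Ω.Nonempty)
    (lam : ℕ → ℝ) (hpos : ∀ n, 0 < lam n) (hlam : Tendsto lam atTop atTop)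
    (u : ℕ → ℂ → ℝ) (hu : ∀ n, ContDiffOn ℝ ∞ (u n) Ω)
    (heq : ∀ n, ∀ z ∈ Ω, lap (u n) z + lam n * u n z = 0)
    (hqe : IsQuantumErgodic Ω lam u) (χ : ℝ → ℝ) (hχ : IsCutoff χ)
    (μ : Measure MW) [IsProbabilityMeasure μ] (hμ : IsLocalLimit χ Ω lam u μ)
    (hvar : ∫ f : MW, f 0 ^ 2 ∂μ = 1)
    {S : Type*} [MeasurableSpace S] (P : Measure S) [IsProbabilityMeasure P]
    (κ : Kernel S MW) [IsMarkovKernel κ] (hκ : P.bind κ = μ)
    (δ : ℝ) (hδ : 0 ≤ δ) (h : ∀ δ' : ℝ, δ < δ' → ∀ᵐ s ∂P, HasSources (κ s) δ')
    (k : ℕ) (w : Fin k → ℂ) (t : Fin k → ℝ) (V ε : ℝ)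
    (hV : V = ∑ i, ∑ j, t i * t j * J0 ‖w i - w j‖) (hε : ε = √(k * δ * ∑ j, t j ^ 2)) :
    ‖∫ f, Complex.exp (Complex.I * (lin w t f : ℝ)) ∂μ - (Real.exp (-V / 2) : ℝ)‖ ≤
      (8 * ε + ε ^ 2 / 4) * V := by
  have hQ := fun v hv l => limit_QV allParts hΩ hb hne hpos hlam hu heq hqe hχ inferInstance hμ
    v hv l
  have hε0 : 0 ≤ ε := by rw [hε]; exact Real.sqrt_nonneg _
  have hC : 0 ≤ k * ∑ j, t j ^ 2 :=
    mul_nonneg (Nat.cast_nonneg k) (Finset.sum_nonneg fun j _ => sq_nonneg _)
  have hε2 : ε ^ 2 = δ * (k * ∑ j, t j ^ 2) := by
    rw [hε, Real.sq_sqrt (by nlinarith)]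
    ring
  have h1 : ∀ l : ℝ, ε < l → ‖∫ f, Complex.exp (Complex.I * (lin w t f : ℝ)) ∂μ -
      (Real.exp (-V / 2) : ℝ)‖ ≤ (8 * l + l ^ 2 / 4) * V := by
    intro l hl
    have hl0 : 0 < l := lt_of_le_of_lt hε0 hl
    have hl2 : ε ^ 2 < l ^ 2 := pow_lt_pow_left₀ hl hε0 two_ne_zero
    -- a suitable `δ'`
    obtain ⟨δ', hδ', h2⟩ : ∃ δ' : ℝ, δ < δ' ∧ (∑ j, t j ^ 2) * (k * δ') ≤ l ^ 2 := by
      refine ⟨δ + (l ^ 2 - ε ^ 2) / (k * ∑ j, t j ^ 2 + 1), ?_, ?_⟩
      · have : 0 < (l ^ 2 - ε ^ 2) / (k * ∑ j, t j ^ 2 + 1) := by
          have : 0 < l ^ 2 - ε ^ 2 := by linarith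
          positivity
        linarith
      · have h3 : (∑ j, t j ^ 2) * (k * (δ + (l ^ 2 - ε ^ 2) / (k * ∑ j, t j ^ 2 + 1))) =
            ε ^ 2 + (l ^ 2 - ε ^ 2) * ((k * ∑ j, t j ^ 2) / (k * ∑ j, t j ^ 2 + 1)) := by
          rw [hε2]; ring
        rw [h3]
        have h4 : (k * ∑ j, t j ^ 2) / (k * ∑ j, t j ^ 2 + 1) ≤ 1 := by
          rw [div_le_one (by linarith)]; linarith
        have h5 : 0 < l ^ 2 - ε ^ 2 := by linarith
        nlinarith
    have h4 := mix_sources hQ hvar hκ (h δ' hδ') w t hl0 h2
    rw [← hV] at h4
    have h5 : -V / 2 = -(1 / 2 * V) := by ring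
    rw [h5]
    exact h4
  have h6 : Tendsto (fun l : ℝ => (8 * l + l ^ 2 / 4) * V) (𝓝[>] ε)
      (𝓝 ((8 * ε + ε ^ 2 / 4) * V)) :=
    (Continuous.tendsto (by fun_prop) ε).mono_left nhdsWithin_le_nhds
  exact ge_of_tendsto h6 (eventually_mem_nhdsWithin.mono fun l hl => h1 l hl)

end Pool.Agent.Results.MP_6b977f_mp.IndependentSources
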