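import Pool.Agent.Helper26.Er.Asm2
import Pool.Agent.Helper26.Er.Dec

/-!
# Linear regression of random waves (MP_6b977f_mp)

The plane is `ℂ`. The definitions are in `Pool.Agent.N661.BR.Defs` (library): `MW` is the space of
the smooth real functions `f` on the plane with `Δf + f = 0`, `IsStationary ρ`, `IsGaussianLaw ρ`
and `IsRandomWave ρ` say that the law `ρ` on `MW` is translation invariant, centred Gaussian, and
`μ_RMW`, and `IsLocalLimit χ Ω lam u μ` says that `μ` is a limit point of the local measures of the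
eigenfunctions `u n` on `Ω`; and in `Pool.Agent.Helper26.Er.Fn`:

* `LinearRegression U ρ` says that `E[f(0) | X] = 0` for every finite linear combination
  `X = ∑ t_j f(w_j)` of values at points `w_j ∈ U` with `E[f(0) X] = 0`;
* `IsIsotropic ρ` says that the law of a finite linear combination of values (at any points)
  depends only on its second moment;
* `ConstantVariance ρ X` says that `E[f(0)² | X] = E f(0)²`, and `HasConstantVariance ρ` that this
  is so for some such `X ≠ 0` with `E[f(0) X] = 0`;
* `IsLimitAlong χ Ω lam u σ μ` says that `μ` is the limit of the local measures of the eigenfunctions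
  `u n` along the subsequence `σ`, and `Decorrelates U χ Ω lam u σ` says that the averages over `Ω` of
  `u n (z) exp(i ∑ t_j u n (z + λ_n^{-1/2} w_j))` tend to `0` along `σ` if `∑ t_j J₀(|w_j|) = 0` and
  `w_j ∈ U` (with the cutoff `χ` of the local measures near the boundary; `χ(0) = 1`).

Proof idea. Let `H` be the closed span of the values `V_x = f(x)` in `L²`, `Φ(c) = E exp(ic)` and
`D_c(k) = E[k exp(ic)]` for `c, k ∈ H`. By unique continuation the values in `U` span `H`. (1)
`LinearRegression` gives `D_c(V_x) = 0` if `E[c V_x] = 0`, and, with `c - t V_x` in place of `c`, the inequality `|D_c(V_x)| ≤ |E[c V_x]|` for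
all `c ∈ H` and all `x`. (2) For fixed `c`, the real and imaginary part `w(x)` of `D_c(V_x)` and
`u(x) = E[c V_x]` are bounded solutions of `Δu + u = 0` on the plane with `|w| ≤ |u|`. Then `w` is a
multiple of `u`: the field `F = u ∇w - w ∇u` has divergence `0`, and the test function
`ζ² u w / (u² + ε)` gives, as `ε → 0`, `∫ ζ² |F|²/u² ≤ 2 ∫ |ζ| |w| |F|/|u| |∇ζ|`, so `F = 0` (with
cut-offs on large balls, as in the Liouville theorem of Berestycki, Caffarelli and Nirenberg, but `u`
may change its sign), and `w - λ u` vanishes by unique continuation. (3) So `D_c(k) = λ(c) E[c k]`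
for all `k ∈ H`, and `Φ` is constant on the spheres of `H` (rotate in planes). (4) If moreover
`E[k² exp(ic)] = E k² Φ(c)` for some `k ≠ 0` orthogonal to `c`, then `λ(c) = i Φ(c)`, and `ρ` is
Gaussian. (5) For limits of quantum ergodic eigenfunctions, the second moment of
`f(0)² - |W_2|²`, `W_2 = (∂_x - i ∂_y)² f(0)`, is at most `3` (library); as the law of
`(f(0), √2 Re W_2, √2 Im W_2)` is rotation invariant, `E k⁴ = 3q`, `E k² k'² = q ≤ 1` for orthonormal
`k, k' ∈ H`, so `(1/n) ∑ e_j² → 1` in `L²` for orthonormal `e_j`, which gives (4). (6) For ergodic `ρ` without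
atoms, (4) follows from the ergodic theorem for `f(x)²` and the theorem of Wiener for `E[c V_x]²`.
-/

set_option autoImplicit false
open MeasureTheory Filter Topology ProbabilityTheory
open scoped ContDiff ENNReal

namespace Pool.Agent.Results.MP_6b977f_mp.LinearRegression

open Pool.Agent.W745.RW (lap)
open Pool.Agent.N661.BR
open Pool.Agent.Helper37.BC
open Pool.Agent.Helper26.Er

/-- **Result.** Let `U` be any nonempty open set of the plane. (A) Let `ρ` be a stationary law on
`MW` with `E f(0)² < ∞`. Then the conditional mean of `f(0)` given `X` is `0` for all finite linear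
combinations `X` of values in `U` uncorrelated with `f(0)`, if and only if the law of a finite
linear combination of values depends only on its second moment. `ρ` is Gaussian if and only if
moreover the conditional second moment of `f(0)` given `X` is constant for one given combination
`X ≠ 0` uncorrelated with `f(0)`. If `ρ` is ergodic and has the covariance `m cov ν (w - w')` for a
probability measure `ν` without atoms modulo `π`, then this is not needed.
(B) Let `u n` be real solutions of `Δu + λ_n u = 0` on the bounded open set `Ω`, `λ_n → ∞`, which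
are quantum ergodic, and let `μ` be the limit of their local measures along a subsequence, with
`∫ f(0)² dμ = 1`. Then `μ` is the random wave if and only if the conditional mean of `f(0)` given
`X` is `0` for all finite linear combinations `X` of values in `U` uncorrelated with `f(0)`. If
`∫ |u n|²` is bounded, this is so if and only if, along the subsequence, `u n` is asymptotically
orthogonal to `exp(i X_n)` for all finite linear combinations `X_n` of its translates
`z ↦ u n (z + λ_n^{-1/2} w_j)`, `w_j ∈ U`, which are uncorrelated with `u n` for the covariance `J₀`.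
`μ` is the random wave if `μ = ∫ κ_s dP(s)`, where almost every `κ_s` is stationary, satisfies
`LinearRegression U`, is ergodic or satisfies `HasConstantVariance`, and has the covariance
`m_s cov ν_s (w - w')` for a probability measure `ν_s` without atoms modulo `π`. -/
theorem result :
    -- (A) stationary waves
    (∀ (ρ : Measure MW) [IsProbabilityMeasure ρ], IsStationary ρ →
      Integrable (fun f : MW => f 0 ^ 2) ρ → ∀ U : Set ℂ, IsOpen U → U.Nonempty →
        (LinearRegression U ρ ↔ IsIsotropic ρ) ∧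
        (∀ (k : ℕ) (w : Fin k → ℂ) (t : Fin k → ℝ), ∫ f : MW, f 0 * lin w t f ∂ρ = 0 →
          ∫ f : MW, lin w t f ^ 2 ∂ρ ≠ 0 →
          (IsGaussianLaw ρ ↔ LinearRegression U ρ ∧ ConstantVariance ρ (lin w t))) ∧
        ∀ (m : ℝ) (ν : Measure ℝ), IsProbabilityMeasure ν → parallel ν = 0 →
          (∀ w w' : ℂ, ∫ f : MW, f w * f w' ∂ρ = m * cov ν (w - w')) → IsErgodic ρ →
          (IsGaussianLaw ρ ↔ LinearRegression U ρ)) ∧
    -- (B) local limits of quantum ergodic eigenfunctions
    (∀ (Ω : Set ℂ), IsOpen Ω → Bornology.IsBounded Ω → Ω.Nonempty →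
      ∀ (lam : ℕ → ℝ), (∀ n, 0 < lam n) → Tendsto lam atTop atTop →
      ∀ (u : ℕ → ℂ → ℝ), (∀ n, ContDiffOn ℝ ∞ (u n) Ω) →
      (∀ n, ∀ z ∈ Ω, lap (u n) z + lam n * u n z = 0) → IsQuantumErgodic Ω lam u →
      ∀ (χ : ℝ → ℝ), IsCutoff χ → ∀ (σ : ℕ → ℕ) (μ : Measure MW) [IsProbabilityMeasure μ],
      IsLimitAlong χ Ω lam u σ μ → ∫ f : MW, f 0 ^ 2 ∂μ = 1 →
        ∀ U : Set ℂ, IsOpen U → U.Nonempty → (IsRandomWave μ ↔ LinearRegression U μ) ∧
        ((∃ C : ℝ, ∀ n, IntegrableOn (fun z => u n z ^ 2) Ω ∧ ∫ z in Ω, u n z ^ 2 ≤ C) →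
          (IsRandomWave μ ↔ Decorrelates U χ Ω lam u σ)) ∧
        ∀ (S : Type) [MeasurableSpace S] (P : Measure S) [IsProbabilityMeasure P]
          (κ : Kernel S MW) [IsMarkovKernel κ], P.bind κ = μ →
          (∀ᵐ s ∂P, IsStationary (κ s) ∧ LinearRegression U (κ s) ∧
            (IsErgodic (κ s) ∨ HasConstantVariance (κ s))) →
          ∀ (m : S → ℝ) (ν : S → Measure ℝ),
          (∀ᵐ s ∂P, IsProbabilityMeasure (ν s) ∧ parallel (ν s) = 0 ∧
            ∀ w w' : ℂ, ∫ f : MW, f w * f w' ∂(κ s) = m s * cov (ν s) (w - w')) →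
          IsRandomWave μ) := by
  refine ⟨fun ρ _ hs h2 U hU hUn => ⟨lin_iff hs h2 hU hUn,
    fun k w t => gauss_iff_one hs h2 hU hUn w t, fun m ν _ hp hcov he =>
      ⟨lin_of_gauss hs h2, gauss_of_erg hs h2 he hp hcov hU hUn⟩⟩, ?_⟩
  intro Ω hΩ hb hne lam hpos hlam u hu heq hqe χ hχ σ μ hp hσ hvar U hU hUn
  have hμ : IsLocalLimit χ Ω lam u μ := ⟨σ, hσ.1, hσ.2⟩
  obtain ⟨hs, h2, hcov⟩ := limit_facts hΩ hb hne hpos hlam hu heq hqe hχ hμ
  obtain ⟨hQ, hmass, _⟩ := limit_all hΩ hb hne hpos hlam hu heq hqe hχ inferInstance hμ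
  have hlin : IsRandomWave μ ↔ LinearRegression U μ := (wave_iff hs h2 (hcov hvar)).trans
    ⟨lin_of_gauss hs h2, gauss_of_lin hs h2 (hcov hvar) hQ hU hUn⟩
  refine ⟨hlin, fun ⟨C, hC⟩ => hlin.trans (dec_iff hΩ hb hne hpos hu hχ (fun n => (hC n).1)
    (fun n => (hC n).2) hs h2 (hcov hvar) hσ), ?_⟩
  intro S _ P _ κ _ hκ h m ν hν
  have hν2 : ∀ᵐ s ∂P, IsProbabilityMeasure (ν s) ∧
      ∀ w w' : ℂ, ∫ f : MW, f w * f w' ∂(κ s) = m s * cov (ν s) (w - w') :=
    hν.mono fun s hs => ⟨hs.1, hs.2.2⟩
  obtain ⟨k1, _⟩ := mix_sec' hκ (ne_top_of_le_ne_top ENNReal.one_ne_top hmass) hν2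
  refine divisible_case allParts hQ hvar hκ m ν hν ?_
  filter_upwards [k1, h, hν] with s h1 hs hn
  obtain ⟨hst, hR, h3⟩ := hs
  rcases h3 with he | ⟨k, w, t, h0, h4, hv⟩
  · have := hn.1
    exact Or.inr (gauss_of_erg hst h1 he hn.2.1 hn.2.2 hU hUn hR)
  · exact Or.inr ((gauss_iff_one hst h1 hU hUn w t h0 h4).2 ⟨hR, hv⟩)

end Pool.Agent.Results.MP_6b977f_mp.LinearRegression
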